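import Pool.Agent.Helper85.KP.StE

/-!
# Module EVF of project KP: the field acts on functions
-/

set_option autoImplicit false

namespace Pool.Agent.Helper18.KP

open MeasureTheory Filter Pool.Agent.Helper52.KP Pool.Agent.Helper85.KP

private lemma ev_diff {m : ℕ} (f : MvPolynomial (Fin m) ℂ) :
    Differentiable ℂ (fun z : Fin m → ℂ => ev f z) := by
  induction f using MvPolynomial.induction_on with
  | C a => simp only [ev, MvPolynomial.eval_C]; exact differentiable_const a
  | add p q hp hq => simp only [ev, map_add] at *; exact hp.add hq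
  | mul_X p i hp =>
    simp only [ev, map_mul, MvPolynomial.eval_X] at *
    exact hp.mul (differentiable_apply i)

private lemma ev_cont {m : ℕ} (f : MvPolynomial (Fin m) ℂ) :
    Continuous (fun z : Fin m → ℂ => ev f z) := (ev_diff f).continuous

/-- substitution of `c ^ w i * z_i` for `z_i` -/
private noncomputable def sub {m : ℕ} (w : Fin m → ℕ) (c : ℂ) :
    MvPolynomial (Fin m) ℂ →ₐ[ℂ] MvPolynomial (Fin m) ℂ :=
  MvPolynomial.bind₁ fun i => MvPolynomial.C (c ^ w i) * MvPolynomial.X i

private lemma ev_sub {m : ℕ} (w : Fin m → ℕ) (c : ℂ) (f : MvPolynomial (Fin m) ℂ) (z : Fin m → ℂ) :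
    ev (sub w c f) z = ev f (scl w c z) := by
  unfold sub ev scl
  induction f using MvPolynomial.induction_on with
  | C a => simp
  | add p q hp hq => simp only [map_add, hp, hq]
  | mul_X p i hp => simp only [map_mul, hp, MvPolynomial.bind₁_X_right, MvPolynomial.eval_C,
      MvPolynomial.eval_X]

private lemma pd_sub {m : ℕ} (w : Fin m → ℕ) (c : ℂ) (j : Fin m) (f : MvPolynomial (Fin m) ℂ) :
    MvPolynomial.pderiv j (sub w c f) =
      MvPolynomial.C (c ^ w j) * sub w c (MvPolynomial.pderiv j f) := by
  induction f using MvPolynomial.induction_on with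
  | C a => simp [sub]
  | add p q hp hq => simp only [map_add, hp, hq, mul_add]
  | mul_X p i hp =>
    have h1 : sub w c (p * MvPolynomial.X i) =
        sub w c p * (MvPolynomial.C (c ^ w i) * MvPolynomial.X i) := by
      simp only [sub, map_mul, MvPolynomial.bind₁_X_right]
    rw [h1, Derivation.leibniz, Derivation.leibniz, Derivation.leibniz, hp]
    simp only [smul_eq_mul, MvPolynomial.pderiv_X, MvPolynomial.pderiv_C, mul_zero, add_zero,
      map_add, map_mul]
    by_cases hij : i = j
    · subst hij
      simp only [Pi.single_eq_same, map_one, mul_one]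
      simp only [sub, MvPolynomial.bind₁_X_right]
      ring
    · rw [Pi.single_eq_of_ne hij]
      simp only [map_zero, mul_zero, zero_add]
      simp only [sub, MvPolynomial.bind₁_X_right]
      ring

/-- the derivatives of a homogeneous polynomial are homogeneous -/
private lemma hom_pd {C : Cone} (hC : Good C) (k : ℕ) (f : MvPolynomial (Fin C.m) ℂ) (hf : f ∈ C.R k)
    (c : ℂ) (z : Fin C.m → ℂ) (j : Fin C.m) :
    c ^ C.w j * ev (MvPolynomial.pderiv j f) (scl C.w c z) =
      c ^ k * ev (MvPolynomial.pderiv j f) z := by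
  have h1 : sub C.w c f = MvPolynomial.C (c ^ k) * f := by
    apply MvPolynomial.funext
    intro x
    have h2 := ev_sub C.w c f x
    unfold ev at h2
    rw [h2, map_mul, MvPolynomial.eval_C]
    exact hC.hom k f hf c x
  have h3 := pd_sub C.w c j f
  rw [h1, Derivation.leibniz, MvPolynomial.pderiv_C, smul_zero, add_zero, smul_eq_mul] at h3
  have h4 := congrArg (fun P => MvPolynomial.eval z P) h3
  simp only [map_mul, MvPolynomial.eval_C] at h4
  have h5 := ev_sub C.w c (MvPolynomial.pderiv j f) z
  unfold ev at h5 ⊢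
  rw [← h5]
  exact h4.symm

/-- **EVF**: the field acts on functions. -/
theorem hEVF : StEVF := by
  intro C hC β hβ hint hhom k f hfR
  have hUo : IsOpen C.U := (isOpen_compl_singleton (x := (0 : ℂ))).preimage (ev_cont C.Δ)
  have hdiff : DifferentiableOn ℂ (fun z => ∑ j, β j z * ev (MvPolynomial.pderiv j f) z) C.U := by
    apply DifferentiableOn.fun_sum
    intro j _
    exact (hβ j).mul (ev_diff _).differentiableOn
  refine hC.extl k (fun z => ∑ j, β j z * ev (MvPolynomial.pderiv j f) z) hdiff ?_ ?_
  · intro c hc z hz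
    rw [Finset.mul_sum]
    apply Finset.sum_congr rfl
    intro j _
    rw [hhom c hc z hz j]
    have h1 := hom_pd hC k f hfR c z j
    calc c ^ (C.jd + C.w j) * β j z * ev (MvPolynomial.pderiv j f) (scl C.w c z)
        = c ^ C.jd * β j z * (c ^ C.w j * ev (MvPolynomial.pderiv j f) (scl C.w c z)) := by
          rw [pow_add]; ring
      _ = c ^ C.jd * β j z * (c ^ k * ev (MvPolynomial.pderiv j f) z) := by rw [h1]
      _ = c ^ (k + C.jd) * (β j z * ev (MvPolynomial.pderiv j f) z) := by rw [pow_add]; ring
  · intro r δ hδ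
    obtain ⟨B, hB⟩ := hC.grd k f hfR r δ hδ
    obtain ⟨a, b, ha, hab⟩ := hC.ubd
    set S : Set (Fin C.m → ℂ) :=
      {z | z ∈ C.U ∧ C.sz z ≤ r ∧ δ ≤ ∑ i, ‖ev (C.Q i) z‖} with hS
    have hSU : S ⊆ C.U := fun z hz => hz.1
    have hszc : Continuous C.sz := by
      unfold Cone.sz
      exact continuous_finsetSum _ fun i _ => (ev_cont (C.X i)).norm
    have hQc : Continuous (fun z : Fin C.m → ℂ => ∑ i, ‖ev (C.Q i) z‖) :=
      continuous_finsetSum _ fun i _ => (ev_cont (C.Q i)).norm
    have hSm : MeasurableSet S := by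
      have h1 : S = C.U ∩ ({z | C.sz z ≤ r} ∩ {z | δ ≤ ∑ i, ‖ev (C.Q i) z‖}) := by
        ext z; rfl
      rw [h1]
      exact hUo.measurableSet.inter
        ((isClosed_le hszc continuous_const).measurableSet.inter
          (isClosed_le continuous_const hQc).measurableSet)
    have hcont : ContinuousOn
        (fun z => ‖∑ j, β j z * ev (MvPolynomial.pderiv j f) z‖ ^ 2) S :=
      ((hdiff.continuousOn.mono hSU).norm).pow 2
    have hg : IntegrableOn (fun z => (max B 0 * Real.exp (|b| * r)) *
        (hf (hes C.u z) (fun j => β j z) * Real.exp (-C.u z))) S :=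
      (hint.mono_set hSU).const_mul _
    refine Integrable.mono' hg (hcont.aestronglyMeasurable hSm) ?_
    rw [ae_restrict_iff' hSm]
    refine Filter.Eventually.of_forall fun z hz => ?_
    obtain ⟨hzU, hzr, hzδ⟩ := hz
    rw [Real.norm_of_nonneg (by positivity)]
    have h0 : 0 ≤ hf (hes C.u z) (fun j => β j z) := by
      by_cases h : (fun j => β j z) = 0
      · rw [h]; simp [Pool.Agent.Helper52.KP.hf]
      · exact ((hC.uhes z hzU).1.2 _ h).le
    have hsz : 0 ≤ C.sz z := (hC.Xpos z hzU).le
    have hu : C.u z ≤ |b| * r :=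
      ((hab z hzU).2.trans (mul_le_mul_of_nonneg_right (le_abs_self b) hsz)).trans
        (mul_le_mul_of_nonneg_left hzr (abs_nonneg b))
    have hB' : ‖∑ j, β j z * ev (MvPolynomial.pderiv j f) z‖ ^ 2 ≤
        B * hf (hes C.u z) (fun j => β j z) := by
      have h2 := hB z hzU hzr hzδ (fun j => β j z)
      have h3 : ∑ j, β j z * ev (MvPolynomial.pderiv j f) z =
          ∑ j, ev (MvPolynomial.pderiv j f) z * β j z :=
        Finset.sum_congr rfl fun j _ => mul_comm _ _
      rw [h3]
      exact h2
    have hexp : 1 ≤ Real.exp (|b| * r) * Real.exp (-C.u z) := by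
      rw [← Real.exp_add]
      exact Real.one_le_exp (by linarith)
    have hm : 0 ≤ max B 0 := le_max_right _ _
    calc ‖∑ j, β j z * ev (MvPolynomial.pderiv j f) z‖ ^ 2
        ≤ B * hf (hes C.u z) (fun j => β j z) := hB'
      _ ≤ max B 0 * hf (hes C.u z) (fun j => β j z) :=
          mul_le_mul_of_nonneg_right (le_max_left _ _) h0
      _ = (max B 0 * hf (hes C.u z) (fun j => β j z)) * 1 := by ring
      _ ≤ (max B 0 * hf (hes C.u z) (fun j => β j z)) *
          (Real.exp (|b| * r) * Real.exp (-C.u z)) :=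
          mul_le_mul_of_nonneg_left hexp (mul_nonneg hm h0)
      _ = _ := by ring

end Pool.Agent.Helper18.KP
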